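import Pool.Agent.Q170.QGraph

/-!
# MP_630a53_an, Q1: the equilateral complete bipartite graph `K_{3,3}` satisfies `M = Γ`
-/

open Set Real Pool.Agent.Q170.QGraph

namespace Pool.Agent.Results.MP_630a53_an.EquilateralK33

/-- The equilateral pumpkin: two vertices joined by `k ≥ 2` edges of length `l`. -/
abbrev pumpkin (k : ℕ) (hk : 2 ≤ k) (l : ℝ) (hl : 0 < l) : MGraph where
  V := Bool
  E := Fin k
  fV := inferInstance
  fE := inferInstance
  dV := inferInstance
  nE := ⟨⟨0, by omega⟩⟩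
  src _ := false
  tgt _ := true
  len _ := l
  len_pos _ := hl
  conn := by
    have h : Relation.EqvGen (fun a b : Bool => ∃ _ : Fin k, false = a ∧ true = b) false true :=
      Relation.EqvGen.rel _ _ ⟨⟨0, by omega⟩, rfl, rfl⟩
    intro u v
    cases u <;> cases v
    · exact Relation.EqvGen.refl _
    · exact h
    · exact h.symm
    · exact Relation.EqvGen.refl _

/-- The equilateral complete graph `K_n`, `n ≥ 2`, with edges of length `l`. -/
abbrev complete (n : ℕ) (hn : 2 ≤ n) (l : ℝ) (hl : 0 < l) : MGraph where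
  V := Fin n
  E := {p : Fin n × Fin n // p.1 < p.2}
  fV := inferInstance
  fE := inferInstance
  dV := inferInstance
  nE := ⟨⟨(⟨0, by omega⟩, ⟨1, by omega⟩), by simp [Fin.lt_def]⟩⟩
  src e := e.1.1
  tgt e := e.1.2
  len _ := l
  len_pos _ := hl
  conn := by
    intro u v
    rcases lt_trichotomy u v with h | h | h
    · exact Relation.EqvGen.rel _ _ ⟨⟨(u, v), h⟩, rfl, rfl⟩
    · subst h; exact Relation.EqvGen.refl _
    · exact (Relation.EqvGen.rel _ _ ⟨⟨(v, u), h⟩, rfl, rfl⟩).symm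

/-- The equilateral complete bipartite graph `K_{3,3}` with edges of length one. -/
abbrev K33 : MGraph where
  V := Fin 3 ⊕ Fin 3
  E := Fin 3 × Fin 3
  fV := inferInstance
  fE := inferInstance
  dV := inferInstance
  nE := ⟨(0, 0)⟩
  src e := Sum.inl e.1
  tgt e := Sum.inr e.2
  len _ := 1
  len_pos _ := one_pos
  conn := by
    have h : ∀ i j : Fin 3, Relation.EqvGen (fun a b : Fin 3 ⊕ Fin 3 =>
        ∃ e : Fin 3 × Fin 3, Sum.inl e.1 = a ∧ Sum.inr e.2 = b) (Sum.inl i) (Sum.inr j) :=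
      fun i j => Relation.EqvGen.rel _ _ ⟨(i, j), rfl, rfl⟩
    intro u v
    rcases u with i | i <;> rcases v with j | j
    · exact (h i 0).trans _ _ _ (h j 0).symm
    · exact h i j
    · exact (h j i).symm
    · exact ((h 0 i).symm).trans _ _ _ (h 0 j)

theorem len1 (e : K33.E) : K33.len e = 1 := rfl

/-! ### The spectral part -/

/-- The second eigenfunctions. -/
theorem family (a b : Fin 3 → ℝ) (ha : a 0 + a 1 + a 2 = 0) (hb : b 0 + b 1 + b 2 = 0)
    (hne : ∃ i j, ∃ x ∈ Icc (0:ℝ) 1, a i * cos (π / 2 * x) + b j * sin (π / 2 * x) ≠ 0) :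
    ∃ f, IsEig K33 (fun _ => 0) ((π / 2) ^ 2) f ∧ ∀ i j, ∀ x ∈ Icc (0:ℝ) 1,
      f (pt K33 (i, j) x) = a i * cos (π / 2 * x) + b j * sin (π / 2 * x) := by
  have hc : ∀ x, HasDerivAt (fun y => cos (π / 2 * y)) (-sin (π / 2 * x) * (π / 2)) x := by
    intro x
    have := (Real.hasDerivAt_cos (π / 2 * x)).comp x ((hasDerivAt_id x).const_mul (π / 2))
    exact this.congr_deriv (by simp)
  have hs : ∀ x, HasDerivAt (fun y => sin (π / 2 * y)) (cos (π / 2 * x) * (π / 2)) x := by
    intro x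
    have := (Real.hasDerivAt_sin (π / 2 * x)).comp x ((hasDerivAt_id x).const_mul (π / 2))
    exact this.congr_deriv (by simp)
  set F : K33.E → ℝ → ℝ := fun e x => a e.1 * cos (π / 2 * x) + b e.2 * sin (π / 2 * x) with hF
  set Fd : K33.E → ℝ → ℝ := fun e x => π / 2 * (b e.2 * cos (π / 2 * x) - a e.1 * sin (π / 2 * x))
    with hFd
  set φ : K33.V → ℝ := Sum.elim a b with hφ
  have h0 : ∀ e, F e 0 = φ (K33.src e) := by
    intro e; simp [hF, hφ, K33]
  have h1 : ∀ e, F e (K33.len e) = φ (K33.tgt e) := by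
    intro e; simp [hF, hφ, K33]
  refine ⟨mkFun K33 F φ h0 h1, isEig_mk (Fd := Fd) ?_ ?_ ?_ ?_, ?_⟩
  · intro e x
    refine (((hc x).const_mul (a e.1)).add ((hs x).const_mul (b e.2))).congr_deriv ?_
    simp only [hFd]; ring
  · intro e x
    refine ((((hc x).const_mul (b e.2)).sub ((hs x).const_mul (a e.1))).const_mul
      (π / 2)).congr_deriv ?_
    simp only [hF]; ring
  · intro v
    change (∑ e : Fin 3 × Fin 3, _) - (∑ e : Fin 3 × Fin 3, _) = _
    rw [Fintype.sum_prod_type, Fintype.sum_prod_type]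
    simp only [Fin.sum_univ_three]
    have e1 : π / 2 * b 0 + π / 2 * b 1 + π / 2 * b 2 = 0 := by linear_combination (π / 2) * hb
    have e2 : π / 2 * a 2 + (π / 2 * a 1 + π / 2 * a 0) = 0 := by linear_combination (π / 2) * ha
    rcases v with i | i <;> fin_cases i <;> simp [K33, hFd] <;> first | exact e1 | exact e2
  · obtain ⟨i, j, x, hx, h⟩ := hne
    exact ⟨(i, j), x, hx, h⟩
  · intro i j x hx
    exact mkFun_pt (G := K33) (i, j) hx.1 hx.2

theorem mu2 : IsMu2 K33 ((π / 2) ^ 2) := by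
  refine ⟨by positivity, ?_, ?_⟩
  · obtain ⟨f, hf, -⟩ := family (fun i => if i = 0 then 1 else -1 / 2) (fun _ => 0)
      (by norm_num [Fin.ext_iff]) (by norm_num) ⟨0, 0, 0, ⟨le_refl _, zero_le_one⟩, by simp⟩
    exact ⟨f, hf⟩
  · rintro ν hν hν' ⟨f, ⟨p, hp⟩, g, φ, hd, hv, hK⟩
    set k := √ν with hk
    have hk0 : 0 < k := Real.sqrt_pos.2 hν
    have hk2 : k ^ 2 = ν := Real.sq_sqrt hν.le
    have hkπ : k < π / 2 := by
      rw [← hk2] at hν'
      exact lt_of_pow_lt_pow_left₀ 2 (by positivity) hν'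
    rw [← hk2] at hd
    have hs : sin k ≠ 0 := (Real.sin_pos_of_pos_of_lt_pi hk0 (by linarith [pi_pos])).ne'
    have hc0 : 0 < cos k := Real.cos_pos_of_mem_Ioo ⟨by linarith [pi_pos], hkπ⟩
    have hc1 : cos k < 1 := by
      have := Real.cos_lt_cos_of_nonneg_of_le_pi (le_refl (0:ℝ)) (by linarith [pi_pos]) hk0
      simpa using this
    have he : ∀ i j : Fin 3, g (i, j) 0 = k * (φ (Sum.inr j) - φ (Sum.inl i) * cos k) / sin k ∧
        g (i, j) 1 = k * (φ (Sum.inr j) * cos k - φ (Sum.inl i)) / sin k := by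
      intro i j
      have := edge_ends hk0.ne' hd hv (i, j) (by rw [len1, mul_one]; exact hs)
      rw [len1, mul_one] at this
      exact this
    have hKl : ∀ i : Fin 3, g (i, 0) 0 + g (i, 1) 0 + g (i, 2) 0 = 0 := by
      intro i
      have := hK (Sum.inl i)
      change (∑ e : Fin 3 × Fin 3, _) - (∑ e : Fin 3 × Fin 3, _) = _ at this
      rw [Fintype.sum_prod_type, Fintype.sum_prod_type] at this
      simp only [Fin.sum_univ_three] at this
      fin_cases i <;> simpa [K33] using this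
    have hKr : ∀ j : Fin 3, g (0, j) 1 + g (1, j) 1 + g (2, j) 1 = 0 := by
      intro j
      have := hK (Sum.inr j)
      change (∑ e : Fin 3 × Fin 3, _) - (∑ e : Fin 3 × Fin 3, _) = _ at this
      rw [Fintype.sum_prod_type, Fintype.sum_prod_type] at this
      simp only [Fin.sum_univ_three] at this
      fin_cases j <;> simp at this ⊢ <;> linarith
    set B := φ (Sum.inr 0) + φ (Sum.inr 1) + φ (Sum.inr 2) with hB
    set A := φ (Sum.inl 0) + φ (Sum.inl 1) + φ (Sum.inl 2) with hA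
    have hl : ∀ i : Fin 3, B = 3 * cos k * φ (Sum.inl i) := by
      intro i
      have := hKl i
      rw [(he i 0).1, (he i 1).1, (he i 2).1] at this
      have h3 : (k / sin k) * (B - 3 * cos k * φ (Sum.inl i)) = 0 := by
        rw [hB]; linear_combination this
      rcases mul_eq_zero.1 h3 with h | h
      · exact absurd h (div_ne_zero hk0.ne' hs)
      · linarith
    have hr : ∀ j : Fin 3, A = 3 * cos k * φ (Sum.inr j) := by
      intro j
      have := hKr j
      rw [(he 0 j).2, (he 1 j).2, (he 2 j).2] at this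
      have h3 : (k / sin k) * (3 * cos k * φ (Sum.inr j) - A) = 0 := by
        rw [hA]; linear_combination this
      rcases mul_eq_zero.1 h3 with h | h
      · exact absurd h (div_ne_zero hk0.ne' hs)
      · linarith
    have hAB : B = cos k * A := by
      have := hl 0; have := hl 1; have := hl 2
      rw [hA]; linarith
    have hBA : A = cos k * B := by
      have := hr 0; have := hr 1; have := hr 2
      rw [hB]; linarith
    have hA0 : A = 0 := by
      have : A * (1 - cos k ^ 2) = 0 := by rw [hAB] at hBA; linear_combination hBA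
      rcases mul_eq_zero.1 this with h | h
      · exact h
      · exfalso; nlinarith
    have hB0 : B = 0 := by rw [hAB, hA0, mul_zero]
    have hφl : ∀ i : Fin 3, φ (Sum.inl i) = 0 := by
      intro i
      have := hl i
      rw [hB0] at this
      rcases mul_eq_zero.1 this.symm with h | h
      · exfalso; linarith
      · exact h
    have hφr : ∀ i : Fin 3, φ (Sum.inr i) = 0 := by
      intro i
      have := hr i
      rw [hA0] at this
      rcases mul_eq_zero.1 this.symm with h | h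
      · exfalso; linarith
      · exact h
    obtain ⟨e, x, hx, hx', rfl⟩ := pt_surj p
    apply hp
    rw [(edge_sol hk0.ne' hd hv e ⟨hx, hx'⟩).1]
    obtain ⟨i, j⟩ := e
    have h1 := (he i j).1
    rw [hφl, hφr] at h1
    change φ (Sum.inl i) * cos (k * x) + g (i, j) 0 / k * sin (k * x) = 0
    rw [h1, hφl]
    simp

theorem sum3 (i : Fin 3) (c : ℝ) : (if (0 : Fin 3) = i then c else -(c / 2)) +
    (if (1 : Fin 3) = i then c else -(c / 2)) + (if (2 : Fin 3) = i then c else -(c / 2)) = 0 := by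
  have h20 : (2 : Fin 3) ≠ 0 := by decide
  have h21 : (2 : Fin 3) ≠ 1 := by decide
  have h10 : (1 : Fin 3) ≠ 0 := by decide
  have h01 : (0 : Fin 3) ≠ 1 := by decide
  have h02 : (0 : Fin 3) ≠ 2 := by decide
  have h12 : (1 : Fin 3) ≠ 2 := by decide
  rcases (by fin_cases i <;> simp : i = 0 ∨ i = 1 ∨ i = 2) with rfl | rfl | rfl
  · rw [if_pos rfl, if_neg h10, if_neg h20]; ring
  · rw [if_neg h01, if_pos rfl, if_neg h21]; ring
  · rw [if_neg h02, if_neg h12, if_pos rfl]; ring

theorem hot : hotSet K33 = univ := by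
  rw [eq_univ_iff_forall]
  intro p
  rw [hotSet_eq mu2]
  obtain ⟨⟨i, j⟩, t, ht, ht', rfl⟩ := pt_surj p
  rw [len1] at ht'
  set a : Fin 3 → ℝ := fun i' => if i' = i then cos (π / 2 * t) else -(cos (π / 2 * t) / 2) with ha
  set b : Fin 3 → ℝ := fun j' => if j' = j then sin (π / 2 * t) else -(sin (π / 2 * t) / 2) with hb
  have hcs : ∀ x ∈ Icc (0:ℝ) 1, 0 ≤ cos (π / 2 * x) ∧ 0 ≤ sin (π / 2 * x) := by
    intro x hx
    constructor
    · apply Real.cos_nonneg_of_mem_Icc
      constructor <;> nlinarith [pi_pos, hx.1, hx.2]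
    · apply Real.sin_nonneg_of_nonneg_of_le_pi <;> nlinarith [pi_pos, hx.1, hx.2]
  have ht1 : a i * cos (π / 2 * t) + b j * sin (π / 2 * t) = 1 := by
    simp only [ha, hb, if_true]
    nlinarith [Real.sin_sq_add_cos_sq (π / 2 * t)]
  obtain ⟨f, hf, hval⟩ := family a b
    (sum3 i _) (sum3 j _)
    ⟨i, j, t, ⟨ht, ht'⟩, by rw [ht1]; exact one_ne_zero⟩
  refine ⟨f, hf, Or.inl ?_⟩
  intro q
  obtain ⟨⟨i', j'⟩, x, hx, hx', rfl⟩ := pt_surj q
  rw [hval i j t ⟨ht, ht'⟩, ht1, hval i' j' x ⟨hx, hx'⟩]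
  obtain ⟨c1, s1⟩ := hcs t ⟨ht, ht'⟩
  obtain ⟨c2, s2⟩ := hcs x ⟨hx, hx'⟩
  have h1 : a i' ≤ cos (π / 2 * t) := by
    simp only [ha]; split_ifs <;> linarith
  have h2 : b j' ≤ sin (π / 2 * t) := by
    simp only [hb]; split_ifs <;> linarith
  have h3 : cos (π / 2 * t - π / 2 * x) ≤ 1 := Real.cos_le_one _
  rw [Real.cos_sub] at h3
  nlinarith [mul_le_mul_of_nonneg_right h1 c2, mul_le_mul_of_nonneg_right h2 s2]

/-! ### The metric part -/

/-- A point of `K33` at a vertex. -/
theorem vpt (v : K33.V) : ∃ p, IsV K33 p v ∧ ∀ r : ℝ, 0 < r → r < 1 / 2 →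
    ∃ q : Fin 3 → Pt K33, Function.Injective q ∧ (∀ i, pdist K33 p (q i) = r) ∧
      ∀ z, pdist K33 p z = r → ∃ i, z = q i := by
  rcases v with i | j
  · refine ⟨pt K33 (i, 0) 0, isV_src (G := K33) (i, 0), fun r hr hr' => ?_⟩
    have hsp := sphere_vertex (G := K33) (isV_src (G := K33) (i, 0)) hr
      (fun e => by rw [len1]; linarith)
    refine ⟨fun j => pt K33 (i, j) r, ?_, fun j => (hsp _).2 (Or.inl ⟨(i, j), rfl, rfl⟩), ?_⟩
    · intro j j' h
      have h : pt K33 (i, j) r = pt K33 (i, j') r := h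
      rw [pt_eq_iff ⟨hr.le, by rw [len1]; linarith⟩ ⟨hr.le, by rw [len1]; linarith⟩] at h
      simp only at h
      rcases h with ⟨h, -⟩ | ⟨v, h, -⟩
      · exact (Prod.ext_iff.1 h).2
      · rcases h with ⟨h, -⟩ | ⟨h, -⟩ <;> exfalso <;> linarith
    · intro z hz
      rcases (hsp z).1 hz with ⟨e, he, rfl⟩ | ⟨e, he, -⟩
      · obtain ⟨i', j'⟩ := e
        have : i' = i := Sum.inl_injective he
        subst this
        exact ⟨j', rfl⟩
      · exact absurd he (by simp [K33])
  · refine ⟨pt K33 (0, j) (K33.len (0, j)), isV_tgt (G := K33) (0, j), fun r hr hr' => ?_⟩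
    have hsp := sphere_vertex (G := K33) (isV_tgt (G := K33) (0, j)) hr
      (fun e => by rw [len1]; linarith)
    refine ⟨fun i => pt K33 (i, j) (K33.len (i, j) - r), ?_,
      fun i => (hsp _).2 (Or.inr ⟨(i, j), rfl, rfl⟩), ?_⟩
    · intro i i' h
      have h : pt K33 (i, j) (1 - r) = pt K33 (i', j) (1 - r) := h
      rw [pt_eq_iff ⟨by linarith, by rw [len1]; linarith⟩
        ⟨by linarith, by rw [len1]; linarith⟩] at h
      simp only at h
      rcases h with ⟨h, -⟩ | ⟨v, h, -⟩
      · exact (Prod.ext_iff.1 h).1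
      · rcases h with ⟨h, -⟩ | ⟨h, -⟩ <;> exfalso <;> linarith
    · intro z hz
      rcases (hsp z).1 hz with ⟨e, he, -⟩ | ⟨e, he, rfl⟩
      · exact absurd he (by simp [K33])
      · obtain ⟨i', j'⟩ := e
        have : j' = j := Sum.inr_injective he
        subst this
        exact ⟨i', rfl⟩

/-- Under an isometry the six vertices of `K33` go to vertices. -/
theorem vertex_to_vertex {H : MGraph} (Φ : Pt K33 ≃ Pt H)
    (hΦ : ∀ p q, pdist H (Φ p) (Φ q) = pdist K33 p q) {p : Pt K33}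
    (hp : ∀ r : ℝ, 0 < r → r < 1 / 2 → ∃ q : Fin 3 → Pt K33, Function.Injective q ∧
      ∀ i, pdist K33 p (q i) = r) : ∃ w, IsV H (Φ p) w := by
  obtain ⟨e, x, hx, hx', he⟩ := pt_surj (Φ p)
  rcases hx.eq_or_lt with h0 | h0
  · subst h0; rw [he]; exact ⟨_, isV_src e⟩
  rcases hx'.eq_or_lt with h1 | h1
  · subst h1; rw [he]; exact ⟨_, isV_tgt e⟩
  exfalso
  obtain ⟨r, hr0, hr1, hr2, hr3⟩ : ∃ r : ℝ, 0 < r ∧ r < 1 / 2 ∧ r < x ∧ r < H.len e - x := by
    refine ⟨min (1 / 4) (min (x / 2) ((H.len e - x) / 2)), ?_, ?_, ?_, ?_⟩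
    · refine lt_min (by norm_num) (lt_min (by linarith) (by linarith))
    · exact (min_le_left _ _).trans_lt (by norm_num)
    · exact ((min_le_right _ _).trans (min_le_left _ _)).trans_lt (by linarith)
    · exact ((min_le_right _ _).trans (min_le_right _ _)).trans_lt (by linarith)
  obtain ⟨q, hq, hqd⟩ := hp r hr0 hr1
  have hsph : ∀ i, Φ (q i) = pt H e (x - r) ∨ Φ (q i) = pt H e (x + r) := by
    intro i
    apply sphere_interior e hr0 hr2 (by linarith)
    rw [← he, hΦ, hqd]
  have hinj : ∀ i j, Φ (q i) = Φ (q j) → i = j := fun i j h => hq (Φ.injective h)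
  rcases hsph 0 with h0 | h0 <;> rcases hsph 1 with h1 | h1 <;> rcases hsph 2 with h2 | h2 <;>
    first
      | (have := hinj 0 1 (h0.trans h1.symm); simp at this)
      | (have := hinj 0 2 (h0.trans h2.symm); simp at this)
      | (have := hinj 1 2 (h1.trans h2.symm); simp at this)

theorem card_le {H : MGraph} (h : Isometric K33 H) : 6 ≤ Fintype.card H.V := by
  obtain ⟨Φ, hΦ⟩ := h
  choose p hp hps using vpt
  have hw : ∀ v, ∃ w, IsV H (Φ (p v)) w := by
    intro v
    apply vertex_to_vertex Φ hΦ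
    intro r hr hr'
    obtain ⟨q, h1, h2, -⟩ := hps v r hr hr'
    exact ⟨q, h1, h2⟩
  choose w hw using hw
  have hinj : Function.Injective w := by
    intro v v' h
    have h1 : Φ (p v) = Φ (p v') := isV_eq (hw v) (h ▸ hw v')
    have h2 : p v = p v' := Φ.injective h1
    exact isV_unique (hp v) (h2 ▸ hp v')
  have := Fintype.card_le_of_injective w hinj
  have h6 : Fintype.card K33.V = 6 := by
    change Fintype.card (Fin 3 ⊕ Fin 3) = 6
    simp
  rwa [h6] at this

theorem not_pumpkin (k : ℕ) (hk : 2 ≤ k) (l : ℝ) (hl : 0 < l) :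
    ¬ Isometric K33 (pumpkin k hk l hl) := by
  intro h
  have := card_le h
  change 6 ≤ Fintype.card Bool at this
  simp at this

theorem not_complete (n : ℕ) (hn : 2 ≤ n) (l : ℝ) (hl : 0 < l) :
    ¬ Isometric K33 (complete n hn l hl) := by
  intro h
  have h6 := card_le h
  change 6 ≤ Fintype.card (Fin n) at h6
  rw [Fintype.card_fin] at h6
  obtain ⟨Φ, hΦ⟩ := h
  obtain ⟨p, hp, hps⟩ := vpt (Sum.inl 0)
  obtain ⟨w, hw⟩ : ∃ w, IsV (complete n hn l hl) (Φ p) w := by
    apply vertex_to_vertex Φ hΦ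
    intro r hr hr'
    obtain ⟨q, h1, h2, -⟩ := hps r hr hr'
    exact ⟨q, h1, h2⟩
  change Fin n at w
  obtain ⟨r, hr0, hr1, hr2⟩ : ∃ r : ℝ, 0 < r ∧ r < 1 / 2 ∧ 2 * r < l := by
    refine ⟨min (1 / 4) (l / 4), lt_min (by norm_num) (by linarith), ?_, ?_⟩
    · exact (min_le_left _ _).trans_lt (by norm_num)
    · have := min_le_right (1 / 4) (l / 4)
      linarith
  obtain ⟨q, hqi, -, hq⟩ := hps r hr0 hr1
  have hsp := sphere_vertex hw hr0 (fun e => hr2)
  -- the points at distance r from the vertex w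
  set E' := (complete n hn l hl).E with hE'
  have hlen : ∀ e, (complete n hn l hl).len e = l := fun _ => rfl
  let z : {w' : Fin n // w' ≠ w} → Pt (complete n hn l hl) := fun w' =>
    if h : w < w'.1 then pt (complete n hn l hl) ⟨(w, w'.1), h⟩ r
    else pt (complete n hn l hl) ⟨(w'.1, w), lt_of_le_of_ne (not_lt.1 h) w'.2⟩ (l - r)
  have hz : ∀ w', pdist (complete n hn l hl) (Φ p) (z w') = r := by
    intro w'
    rw [hsp]
    by_cases h : w < w'.1
    · left; exact ⟨⟨(w, w'.1), h⟩, rfl, by simp only [z, h, dif_pos]⟩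
    · right; exact ⟨⟨(w'.1, w), lt_of_le_of_ne (not_lt.1 h) w'.2⟩, rfl, by
        simp only [z, h, dif_neg, not_false_iff]⟩
  have hzi : Function.Injective z := by
    intro a b hab
    by_cases ha : w < a.1 <;> by_cases hb : w < b.1
    · simp only [z, ha, hb, dif_pos] at hab
      rw [pt_eq_iff ⟨hr0.le, by rw [hlen]; linarith⟩ ⟨hr0.le, by rw [hlen]; linarith⟩] at hab
      simp only at hab
      rcases hab with ⟨h, -⟩ | ⟨v, h, -⟩
      · have := (Prod.ext_iff.1 (Subtype.ext_iff.1 h)).2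
        exact Subtype.ext this
      · rcases h with ⟨h, -⟩ | ⟨h, -⟩ <;> exfalso <;> linarith
    · simp only [z, ha, hb, dif_pos, dif_neg, not_false_iff] at hab
      rw [pt_eq_iff ⟨hr0.le, by rw [hlen]; linarith⟩
        ⟨by linarith, by rw [hlen]; linarith⟩] at hab
      simp only at hab
      rcases hab with ⟨h, -⟩ | ⟨v, h, -⟩
      · have := (Prod.ext_iff.1 (Subtype.ext_iff.1 h)).1
        exact absurd this.symm b.2
      · rcases h with ⟨h, -⟩ | ⟨h, -⟩ <;> exfalso <;> linarith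
    · simp only [z, ha, hb, dif_pos, dif_neg, not_false_iff] at hab
      rw [pt_eq_iff ⟨by linarith, by rw [hlen]; linarith⟩
        ⟨hr0.le, by rw [hlen]; linarith⟩] at hab
      simp only at hab
      rcases hab with ⟨h, -⟩ | ⟨v, h, -⟩
      · have := (Prod.ext_iff.1 (Subtype.ext_iff.1 h)).1
        exact absurd this a.2
      · rcases h with ⟨h, -⟩ | ⟨h, -⟩ <;> exfalso <;> linarith
    · simp only [z, ha, hb, dif_neg, not_false_iff] at hab
      rw [pt_eq_iff ⟨by linarith, by rw [hlen]; linarith⟩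
        ⟨by linarith, by rw [hlen]; linarith⟩] at hab
      simp only at hab
      rcases hab with ⟨h, -⟩ | ⟨v, h, -⟩
      · have := (Prod.ext_iff.1 (Subtype.ext_iff.1 h)).1
        exact Subtype.ext this
      · rcases h with ⟨h, -⟩ | ⟨h, -⟩ <;> exfalso <;> linarith
  have hpull : ∀ w', ∃ i, Φ.symm (z w') = q i := by
    intro w'
    apply hq
    have := hΦ p (Φ.symm (z w'))
    rw [Φ.apply_symm_apply, hz] at this
    exact this.symm
  choose i hi using hpull
  have hii : Function.Injective i := by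
    intro a b hab
    apply hzi
    apply Φ.symm.injective
    rw [hi, hi, hab]
  have hcard := Fintype.card_le_of_injective i hii
  rw [Fintype.card_subtype_compl, Fintype.card_fin, Fintype.card_fin, Fintype.card_subtype_eq]
    at hcard
  omega

/-- **MP_630a53_an, Q1**: yes.  The equilateral `K_{3,3}` satisfies `M = Γ` and is not isometric to
an equilateral pumpkin or an equilateral complete graph. -/
theorem result : hotSet K33 = univ ∧
    (∀ (k : ℕ) (hk : 2 ≤ k) (l : ℝ) (hl : 0 < l), ¬ Isometric K33 (pumpkin k hk l hl)) ∧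
    ∀ (n : ℕ) (hn : 2 ≤ n) (l : ℝ) (hl : 0 < l), ¬ Isometric K33 (complete n hn l hl) :=
  ⟨hot, not_pumpkin, not_complete⟩

end Pool.Agent.Results.MP_630a53_an.EquilateralK33
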